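import Pool.Agent.W642.CT.Defs
import Pool.Agent.H828R3.Exc.Law

set_option autoImplicit false

/-! The law of the descent, in terms of the Collatz function. -/

namespace Pool.Agent.W642.CT

open Pool.Agent.Helper894.Collatz

theorem T_eq_C (m : ℕ) : T m = if m % 2 = 0 then C m else C (C m) := by
  unfold T C
  split_ifs with h1 h2
  · rfl
  · rfl
  · exfalso; omega

/-- iterates of the shortcut map are iterates of the Collatz map -/
theorem iter_T (j : ℕ) : ∀ n : ℕ, C^[j + od j n] n = T^[j] n := by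
  induction j with
  | zero => intro n; simp [od]
  | succ j ih =>
    intro n
    have e : od (j + 1) n = n % 2 + od j (T n) := by
      have := od_add 1 j n
      rw [add_comm 1 j] at this
      rw [this]
      simp [od]
    rw [e, Function.iterate_succ_apply, ← ih (T n), T_eq_C]
    rcases Nat.mod_two_eq_zero_or_one n with h | h
    · rw [if_pos h, h]
      have e2 : j + 1 + (0 + od j (C n)) = (j + od j (C n)) + 1 := by ring
      rw [e2, Function.iterate_succ_apply]
    · rw [if_neg (by omega), h]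
      have e2 : j + 1 + (1 + od j (C (C n))) = (j + od j (C (C n))) + 1 + 1 := by ring
      rw [e2, Function.iterate_succ_apply, Function.iterate_succ_apply]

/-- THE LAW OF THE DESCENT for the Collatz function -/
theorem law_C {M : ℝ} (hM : 3 / Real.log (4 / 3) < M) : ∃ c K : ℝ, 0 < c ∧ 0 < K ∧ Law M c K := by
  have hl0 : 0 < Real.log (4 / 3) := Real.log_pos (by norm_num)
  have hl3 : 0 < Real.log 3 := Real.log_pos (by norm_num)
  have hl2 : 0 < Real.log 2 := Real.log_pos (by norm_num)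
  set l := Real.log (4 / 3) with hl
  have hl' : l = 2 * Real.log 2 - Real.log 3 := by
    rw [hl, Real.log_div (by norm_num) (by norm_num)]
    have : (4 : ℝ) = 2 ^ 2 := by norm_num
    rw [this, Real.log_pow]
    push_cast
    ring
  -- `ε`
  set ε := (M - 3 / l) / (3 / l + 1 / Real.log 3) with hε
  have hden : 0 < 3 / l + 1 / Real.log 3 := by positivity
  have hε0 : 0 < ε := div_pos (by linarith) hden
  have hεM : (3 / l + 1 / Real.log 3) * ε = M - 3 / l := by
    rw [hε]; field_simp
  obtain ⟨c, K, hc, hK, h⟩ := Pool.Agent.H828R3.Exc.law hε0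
  refine ⟨c, K, hc, hK, fun x y hx hy => ?_⟩
  have h1 := h x y (x ^ 2) hx hy (by nlinarith)
  rw [div_self (by positivity)] at h1
  refine le_trans ?_ h1
  have hfin : {n : ℕ | 1 ≤ n ∧ (n : ℝ) ≤ x ∧ ¬ Pool.Agent.H828R3.Exc.Pr ε y (x ^ 2) n}.Finite := by
    apply (Set.finite_Iic ⌊x⌋₊).subset
    rintro n ⟨_, h2, _⟩
    exact Nat.le_floor h2
  have hsub : {n : ℕ | 1 ≤ n ∧ (n : ℝ) ≤ x ∧ ¬ ∃ k : ℕ, (k : ℝ) ≤ M * Real.log n ∧
      ((C^[k] n : ℕ) : ℝ) ≤ y} ⊆
      {n : ℕ | 1 ≤ n ∧ (n : ℝ) ≤ x ∧ ¬ Pool.Agent.H828R3.Exc.Pr ε y (x ^ 2) n} := by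
    rintro n ⟨h2, h3, h4⟩
    refine ⟨h2, h3, fun h5 => h4 ?_⟩
    obtain ⟨m, hm1, hm2⟩ := h5
    refine ⟨m + od m n, ?_, by rw [iter_T]; exact hm1⟩
    have hn0 : (0 : ℝ) < n := by exact_mod_cast h2
    have hlogn : 0 ≤ Real.log (n : ℝ) := Real.log_natCast_nonneg n
    have hTpos : 1 ≤ T^[m] n := by rw [← iter_T]; exact C_iter_pos h2 _
    have hT0 : (0 : ℝ) < (T^[m] n : ℕ) := by exact_mod_cast hTpos
    have hlogT : 0 ≤ Real.log (T^[m] n : ℕ) := Real.log_natCast_nonneg _
    have h7 := (abs_le.1 (hm2 m le_rfl).1).2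
    have hmu : Pool.Agent.H319R2.Lln.mu = l / 2 := rfl
    rw [hmu] at h7
    -- odd terms
    have h8 : 3 ^ (od m n) * n ≤ 2 ^ m * T^[m] n := by
      rw [iter_eq]; exact Nat.le_add_right _ _
    have h9 : (od m n : ℝ) * Real.log 3 + Real.log n ≤ m * Real.log 2 + Real.log (T^[m] n : ℕ) := by
      have h10 : ((3 : ℝ) ^ (od m n) * n) ≤ 2 ^ m * (T^[m] n : ℕ) := by exact_mod_cast h8
      have h11 := Real.log_le_log (by positivity) h10
      rwa [Real.log_mul (by positivity) hn0.ne', Real.log_mul (by positivity) hT0.ne',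
        Real.log_pow, Real.log_pow] at h11
    have h12 : (od m n : ℝ) * Real.log 3 ≤ m * (Real.log 3 / 2) + ε * Real.log n := by
      have e : (m : ℝ) * Real.log 2 = m * (Real.log 3 / 2) + l / 2 * m := by rw [hl']; ring
      linarith
    have h13 : (od m n : ℝ) ≤ m / 2 + ε * Real.log n / Real.log 3 := by
      rw [← sub_le_iff_le_add', le_div_iff₀ hl3]
      nlinarith
    have h14 : (m : ℝ) ≤ 2 / l * ((1 + ε) * Real.log n) := by
      have h15 : l / 2 * m ≤ (1 + ε) * Real.log n := by linarith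
      have e : (m : ℝ) = 2 / l * (l / 2 * m) := by field_simp
      rw [e]
      exact mul_le_mul_of_nonneg_left h15 (by positivity)
    push_cast
    have e : M * Real.log n = 3 / l * Real.log n + (3 / l + 1 / Real.log 3) * ε * Real.log n := by
      rw [hεM]; ring
    have e2 : 3 / 2 * (2 / l * ((1 + ε) * Real.log n)) =
        3 / l * Real.log n + 3 / l * ε * Real.log n := by
      field_simp
    have e3 : ε * Real.log n / Real.log 3 = 1 / Real.log 3 * ε * Real.log n := by
      field_simp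
    nlinarith
  exact_mod_cast Set.ncard_le_ncard hsub hfin

end Pool.Agent.W642.CT
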