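import Pool.Agent.W642.CT.Tr

set_option autoImplicit false

/-! The threshold `x / log x`. -/

namespace Pool.Agent.W642.CT

open Filter Topology

theorem late_mono {R : Set ℕ} {f g : ℕ → ℝ} {x : ℝ} (h : ∀ m : ℕ, 1 ≤ m → (m : ℝ) ≤ x → g m ≤ f m) :
    late R f x ≤ late R g x := by
  apply Set.ncard_le_ncard _ (late_finite R g x)
  rintro m ⟨h1, h2, h3, h4⟩
  exact ⟨h1, h2, h3, fun h5 => h4 (h5.mono (h m h1 h2))⟩

theorem log_threshold {c : ℝ} (hc : 0 < c) (hA : Amp c) {R : Set ℕ} (hR : Inv R) {K κ : ℝ}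
    (hK : 0 < K) (hκ : κ < c / K)
    (h : ∀ᶠ x : ℝ in atTop, (late R (fun n => K * Real.log n) x : ℝ) ≤ κ * x / Real.log x) :
    ∀ᶠ n : ℕ in atTop, n ∈ R → StopsBy n n := by
  obtain ⟨θ, hθ1, hθ2⟩ : ∃ θ : ℝ, max 0 (κ * K / c) < θ ∧ θ < 1 := by
    apply exists_between
    apply max_lt one_pos
    rw [div_lt_one hc]
    rwa [lt_div_iff₀ hK] at hκ
  have hθ0 : 0 < θ := (le_max_left _ _).trans_lt hθ1
  have hθκ : κ * K < c * θ := by
    have := (le_max_right _ _).trans_lt hθ1
    rw [div_lt_iff₀ hc] at this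
    linarith
  apply single_scale hA hR hθ2
  have hX : Tendsto (fun u : ℝ => Real.exp (θ * u / K)) atTop atTop :=
    Real.tendsto_exp_atTop.comp ((tendsto_id.const_mul_atTop hθ0).atTop_div_const hK)
  have f1 : ∀ᶠ u : ℝ in atTop, Real.log u ≤ θ / (2 * K) * u := by
    have := Real.isLittleO_log_id_atTop.bound (show 0 < θ / (2 * K) by positivity)
    filter_upwards [this, eventually_ge_atTop 1] with u hu hu1
    rw [Real.norm_eq_abs, Real.norm_eq_abs, id, abs_of_nonneg (by linarith : (0 : ℝ) ≤ u)] at hu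
    exact (le_abs_self _).trans hu
  have f2 : ∀ᶠ u : ℝ in atTop, 2 ≤ θ / (2 * K) * u :=
    (tendsto_id.const_mul_atTop (show 0 < θ / (2 * K) by positivity)).eventually_ge_atTop 2
  have f3 := hX.eventually h
  filter_upwards [(tendsto_natCast_atTop_atTop (R := ℝ)).eventually ((f1.and f2).and f3),
    eventually_ge_atTop 1] with n hn hn1
  obtain ⟨⟨g1, g2⟩, g3⟩ := hn
  have hn0 : (0 : ℝ) < n := by exact_mod_cast hn1
  refine ⟨Real.exp (θ * n / K), ?_, ?_⟩
  · have e1 : 4 * (n : ℝ) ≤ Real.exp 2 * Real.exp (Real.log n) := by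
      rw [Real.exp_log hn0]
      apply mul_le_mul_of_nonneg_right _ hn0.le
      have : Real.exp 2 = Real.exp 1 * Real.exp 1 := by rw [← Real.exp_add]; norm_num
      rw [this]
      have := Real.exp_one_gt_d9
      nlinarith
    refine e1.trans ?_
    rw [← Real.exp_add]
    apply Real.exp_le_exp.2
    have e2 : θ * n / K = θ / (2 * K) * n + θ / (2 * K) * n := by
      field_simp
      ring
    linarith
  · have hx0 : 0 < Real.exp (θ * n / K) := Real.exp_pos _
    have h1 : (late R (fun _ => θ * n) (Real.exp (θ * n / K)) : ℝ) ≤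
        (late R (fun m => K * Real.log m) (Real.exp (θ * n / K)) : ℝ) := by
      have := late_mono (R := R) (f := fun _ => θ * (n : ℝ)) (g := fun m => K * Real.log m)
        (x := Real.exp (θ * n / K)) (fun m hm1 hm => by
          have hm0 : (0 : ℝ) < m := by exact_mod_cast hm1
          have h2 : Real.log m ≤ θ * n / K := by
            rw [← Real.log_exp (θ * n / K)]
            exact Real.log_le_log hm0 hm
          calc K * Real.log m ≤ K * (θ * n / K) := mul_le_mul_of_nonneg_left h2 hK.le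
            _ = θ * n := by field_simp)
      exact_mod_cast this
    refine lt_of_le_of_lt (h1.trans g3) ?_
    rw [Real.log_exp, div_lt_div_iff₀ (by positivity) hn0]
    have e : κ * Real.exp (θ * n / K) * n = Real.exp (θ * n / K) * n / K * (κ * K) := by
      field_simp
    have e' : c * Real.exp (θ * n / K) * (θ * n / K) = Real.exp (θ * n / K) * n / K * (c * θ) := by
      field_simp
    rw [e, e']
    exact mul_lt_mul_of_pos_left hθκ (by positivity)

end Pool.Agent.W642.CT
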