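import Pool.Agent.W642.CT.Defs

set_option autoImplicit false

/-! From bounds for total stopping times of the Collatz function to few exceptions. -/

namespace Pool.Agent.W642.CT

open Filter Topology

/-- a power bound gives a power saving for every power -/
theorem saving_of_power {M : ℝ} (hL : ∃ c K : ℝ, 0 < c ∧ 0 < K ∧ Law M c K) {R : Set ℕ} (hR : Inv R)
    {A B : ℝ} (hB : 0 < B)
    (h : ∀ᶠ n : ℕ in atTop, n ∈ R → StopsBy ((n : ℝ) ^ A) n) :
    ∃ δ : ℝ, 0 < δ ∧ ∀ᶠ x : ℝ in atTop, (late R (fun n => (n : ℝ) ^ B) x : ℝ) ≤ x ^ (1 - δ) := by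
  obtain ⟨c, K, hc, hK, hL⟩ := hL
  obtain ⟨N₀, hN₀⟩ := eventually_atTop.1 h
  set A' := max A 1 with hA'
  have hA'1 : 1 ≤ A' := le_max_right _ _
  have hN₁ : ∀ n : ℕ, max N₀ 1 ≤ n → n ∈ R → StopsBy ((n : ℝ) ^ A') n := by
    intro n hn hnR
    have hn1 : (1 : ℝ) ≤ n := by exact_mod_cast (le_max_right _ _).trans hn
    exact (hN₀ n ((le_max_left _ _).trans hn) hnR).mono
      (Real.rpow_le_rpow_of_exponent_le hn1 (le_max_left _ _))
  obtain ⟨S, hS0, hS⟩ := all_members hR hN₁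
  set η := B / (4 * A') with hη
  have hη0 : 0 < η := by positivity
  have hηA : η * A' = B / 4 := by rw [hη]; field_simp
  set δ := min (η * c / 2) (1 / 4) with hδ
  have hδ0 : 0 < δ := lt_min (by positivity) (by norm_num)
  have hδ1 : δ ≤ η * c / 2 := min_le_left _ _
  have hδ2 : δ ≤ 1 / 4 := min_le_right _ _
  refine ⟨δ, hδ0, ?_⟩
  -- `log^4` against a power
  have t1 : ∀ᶠ x : ℝ in atTop, K * (Real.log x) ^ 4 ≤ 1 / 3 * x ^ δ := by
    have h1 := (isLittleO_log_rpow_atTop (show 0 < δ / 4 by positivity)).tendsto_div_nhds_zero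
    have h2 := h1.pow 4
    rw [zero_pow (by norm_num)] at h2
    have h3 := h2.eventually (gt_mem_nhds (show (0 : ℝ) < 1 / (3 * K) by positivity))
    filter_upwards [h3, eventually_gt_atTop 0] with x hx hx0
    rw [div_pow, ← Real.rpow_natCast (x ^ (δ / 4)), ← Real.rpow_mul hx0.le] at hx
    have e : δ / 4 * ((4 : ℕ) : ℝ) = δ := by push_cast; ring
    rw [e, div_lt_iff₀ (Real.rpow_pos_of_pos hx0 _)] at hx
    calc K * (Real.log x) ^ 4 ≤ K * (1 / (3 * K) * x ^ δ) := mul_le_mul_of_nonneg_left hx.le hK.le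
      _ = 1 / 3 * x ^ δ := by field_simp
  have t2 : ∀ᶠ x : ℝ in atTop, 3 ≤ x ^ (1 / 4 : ℝ) :=
    (tendsto_rpow_atTop (by norm_num)).eventually_ge_atTop 3
  have t3 : ∀ᶠ x : ℝ in atTop, |M| * Real.log x ≤ 1 / 3 * x ^ (B / 2) := by
    have h1 := (isLittleO_log_rpow_atTop (show 0 < B / 2 by positivity)).bound
      (show (0 : ℝ) < 1 / (3 * (|M| + 1)) by positivity)
    filter_upwards [h1, eventually_ge_atTop 1] with x hx hx1
    rw [Real.norm_eq_abs, Real.norm_eq_abs, abs_of_nonneg (Real.rpow_nonneg (by linarith) _),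
      abs_of_nonneg (Real.log_nonneg hx1)] at hx
    have hp : 0 ≤ x ^ (B / 2) := Real.rpow_nonneg (by linarith) _
    calc |M| * Real.log x ≤ (|M| + 1) * (1 / (3 * (|M| + 1)) * x ^ (B / 2)) := by
          apply mul_le_mul (by linarith) hx (Real.log_nonneg hx1) (by positivity)
      _ = 1 / 3 * x ^ (B / 2) := by field_simp
  have t4 : ∀ᶠ x : ℝ in atTop, max (3 * S) 3 ≤ x ^ (B / 4) :=
    (tendsto_rpow_atTop (by positivity)).eventually_ge_atTop _
  filter_upwards [t1, t2, t3, t4, eventually_ge_atTop 2] with x h1 h2 h3 h4 hx2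
  have hx0 : 0 < x := by linarith
  have hx1 : 1 ≤ x := by linarith
  have hlx : 0 ≤ Real.log x := Real.log_nonneg hx1
  have hy : 1 ≤ x ^ η := Real.one_le_rpow hx1 hη0.le
  have h5 : 3 * S ≤ x ^ (B / 4) := (le_max_left _ _).trans h4
  have h6 : 3 ≤ x ^ (B / 4) := (le_max_right _ _).trans h4
  have hB2 : x ^ (B / 2) = x ^ (B / 4) * x ^ (B / 4) := by
    rw [← Real.rpow_add hx0]; congr 1; ring
  have key := late_le hL hR (by linarith : (0 : ℝ) ≤ A') hS hx2 hy (f := fun n => (n : ℝ) ^ B) (by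
    intro n hn1 hn2 hn3
    have hn0 : (0 : ℝ) < n := by exact_mod_cast hn1
    have g1 : x ^ (B / 2) ≤ (n : ℝ) ^ B := by
      have : x ^ (B / 2) = (√x) ^ B := by
        rw [Real.sqrt_eq_rpow, ← Real.rpow_mul hx0.le]; congr 1; ring
      rw [this]
      exact Real.rpow_le_rpow (Real.sqrt_nonneg _) hn2.le hB.le
    have g2 : M * Real.log n ≤ |M| * Real.log x := by
      calc M * Real.log n ≤ |M| * Real.log n :=
            mul_le_mul_of_nonneg_right (le_abs_self _) (Real.log_natCast_nonneg _)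
        _ ≤ |M| * Real.log x := mul_le_mul_of_nonneg_left (Real.log_le_log hn0 hn3) (abs_nonneg _)
    have g3 : (x ^ η) ^ A' = x ^ (B / 4) := by
      rw [← Real.rpow_mul hx0.le, hηA]
    rw [g3]
    have g4 : 3 * x ^ (B / 4) ≤ x ^ (B / 2) := by
      rw [hB2]
      exact mul_le_mul_of_nonneg_right h6 (by positivity)
    nlinarith)
  refine key.trans ?_
  have e1 : x / (x ^ η) ^ c = x ^ (1 - η * c) := by
    rw [← Real.rpow_mul hx0.le, Real.rpow_sub hx0, Real.rpow_one]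
  rw [e1, Real.sqrt_eq_rpow]
  have hp : 0 < x ^ (1 - δ) := Real.rpow_pos_of_pos hx0 _
  have p1 : x ^ (1 / 2 : ℝ) ≤ 1 / 3 * x ^ (1 - δ) := by
    have q1 : x ^ (1 / 2 : ℝ) * x ^ (1 / 4 : ℝ) ≤ x ^ (1 - δ) := by
      rw [← Real.rpow_add hx0]
      exact Real.rpow_le_rpow_of_exponent_le hx1 (by linarith)
    have q2 : 0 < x ^ (1 / 2 : ℝ) := Real.rpow_pos_of_pos hx0 _
    nlinarith
  have p2 : K * (Real.log x) ^ 4 * x ^ (1 - η * c) ≤ 1 / 3 * x ^ (1 - δ) := by
    have q0 : 0 < x ^ (1 - η * c) := Real.rpow_pos_of_pos hx0 _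
    calc K * (Real.log x) ^ 4 * x ^ (1 - η * c) ≤ 1 / 3 * x ^ δ * x ^ (1 - η * c) :=
          mul_le_mul_of_nonneg_right h1 q0.le
      _ = 1 / 3 * (x ^ δ * x ^ (1 - η * c)) := by ring
      _ ≤ 1 / 3 * x ^ (1 - δ) := by
          apply mul_le_mul_of_nonneg_left _ (by norm_num)
          rw [← Real.rpow_add hx0]
          exact Real.rpow_le_rpow_of_exponent_le hx1 (by linarith)
  have p3 : K * (Real.log x) ^ 4 ≤ 1 / 3 * x ^ (1 - δ) := by
    refine h1.trans (mul_le_mul_of_nonneg_left ?_ (by norm_num))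
    exact Real.rpow_le_rpow_of_exponent_le hx1 (by linarith)
  calc x ^ (1 / 2 : ℝ) + K * (Real.log x) ^ 4 * (x ^ (1 - η * c) + 1)
      = x ^ (1 / 2 : ℝ) + K * (Real.log x) ^ 4 * x ^ (1 - η * c) + K * (Real.log x) ^ 4 := by ring
    _ ≤ x ^ (1 - δ) := by linarith

/-- a subpolynomial bound gives exceptions fewer than `x / (log x)^D` to the logarithmic law -/
theorem log_saving_of_sub {M : ℝ} (hL : ∃ c K : ℝ, 0 < c ∧ 0 < K ∧ Law M c K)
    {R : Set ℕ} (hR : Inv R) {L D : ℝ} (hL1 : M < L)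
    (h : ∀ ε : ℝ, 0 < ε → ∀ᶠ n : ℕ in atTop, n ∈ R → StopsBy ((n : ℝ) ^ ε) n) :
    ∀ᶠ x : ℝ in atTop, (late R (fun n => L * Real.log n) x : ℝ) ≤ x / (Real.log x) ^ D := by
  obtain ⟨c, K, hc, hK, hL⟩ := hL
  set D' := max D 0 with hD'
  have hD'0 : 0 ≤ D' := le_max_right _ _
  set P := (D' + 5) / c with hP
  have hP0 : 0 < P := by positivity
  have hPc : P * c = D' + 5 := by rw [hP]; field_simp
  set ε := 1 / (2 * P) with hε
  have hε0 : 0 < ε := by positivity
  have hPε : P * ε = 1 / 2 := by rw [hε]; field_simp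
  obtain ⟨N₀, hN₀⟩ := eventually_atTop.1 (h ε hε0)
  obtain ⟨S, hS0, hS⟩ := all_members hR hN₀
  have t1 : ∀ᶠ x : ℝ in atTop, Real.log x ^ (D' + 4) ≤ 1 / (3 * K) * x := by
    have h1 := (isLittleO_log_rpow_rpow_atTop (D' + 4) (show (0 : ℝ) < 1 by norm_num)).bound
      (show (0 : ℝ) < 1 / (3 * K) by positivity)
    filter_upwards [h1, eventually_ge_atTop 1] with x hx hx1
    rw [Real.norm_eq_abs, Real.norm_eq_abs, Real.rpow_one, abs_of_nonneg (by linarith : 0 ≤ x)] at hx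
    exact (le_abs_self _).trans hx
  have t2 : ∀ᶠ x : ℝ in atTop, Real.log x ^ D' ≤ 1 / 3 * x ^ (1 / 2 : ℝ) := by
    have h1 := (isLittleO_log_rpow_rpow_atTop D' (show (0 : ℝ) < 1 / 2 by norm_num)).bound
      (show (0 : ℝ) < 1 / 3 by norm_num)
    filter_upwards [h1, eventually_ge_atTop 1] with x hx hx1
    rw [Real.norm_eq_abs, Real.norm_eq_abs,
      abs_of_nonneg (Real.rpow_nonneg (by linarith : (0 : ℝ) ≤ x) (1 / 2))] at hx
    exact (le_abs_self _).trans hx
  have t3 := Real.tendsto_log_atTop.eventually_ge_atTop (max (3 * K) (max 1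
    (max (4 * S / (L - M)) ((4 / (L - M)) ^ 2))))
  filter_upwards [t1, t2, t3, eventually_ge_atTop 2] with x h1 h2 h3 hx2
  have hx0 : 0 < x := by linarith
  set u := Real.log x with hu
  have h4 : 3 * K ≤ u := (le_max_left _ _).trans h3
  have h5 : 1 ≤ u := ((le_max_left _ _).trans (le_max_right _ _)).trans h3
  have h6 : 4 * S / (L - M) ≤ u :=
    ((le_max_left _ _).trans ((le_max_right _ _).trans (le_max_right _ _))).trans h3
  have h7 : (4 / (L - M)) ^ 2 ≤ u :=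
    ((le_max_right _ _).trans ((le_max_right _ _).trans (le_max_right _ _))).trans h3
  have hu0 : 0 < u := by linarith
  have hLM : 0 < L - M := by linarith
  have hy : 1 ≤ u ^ P := Real.one_le_rpow h5 hP0.le
  have key := late_le hL hR hε0.le hS hx2 hy (f := fun n => L * Real.log n) (by
    intro n hn1 hn2 hn3
    have hn0 : (0 : ℝ) < n := by exact_mod_cast hn1
    have g1 : u / 2 ≤ Real.log n := by
      have := Real.log_le_log (Real.sqrt_pos.2 hx0) hn2.le
      rwa [Real.log_sqrt hx0.le] at this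
    have g2 : (u ^ P) ^ ε = √u := by
      rw [← Real.rpow_mul hu0.le, hPε, Real.sqrt_eq_rpow]
    rw [g2]
    have g3 : S ≤ (L - M) / 4 * u := by
      rw [div_le_iff₀ hLM] at h6
      linarith
    have g4 : √u ≤ (L - M) / 4 * u := by
      have g5 : 4 / (L - M) ≤ √u := Real.le_sqrt_of_sq_le h7
      have g6 : √u * √u = u := Real.mul_self_sqrt hu0.le
      rw [div_le_iff₀ hLM] at g5
      have g7 : 0 ≤ √u := Real.sqrt_nonneg u
      calc √u = √u * 4 / 4 := by ring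
        _ ≤ √u * (√u * (L - M)) / 4 := by
            apply div_le_div_of_nonneg_right _ (by norm_num)
            exact mul_le_mul_of_nonneg_left g5 g7
        _ = (L - M) / 4 * (√u * √u) := by ring
        _ = (L - M) / 4 * u := by rw [g6]
    have g8 : (L - M) * (u / 2) ≤ (L - M) * Real.log n := mul_le_mul_of_nonneg_left g1 hLM.le
    linarith)
  refine key.trans ?_
  have hDD : x / u ^ D' ≤ x / u ^ D := by
    apply div_le_div_of_nonneg_left hx0.le (Real.rpow_pos_of_pos hu0 _)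
    exact Real.rpow_le_rpow_of_exponent_le h5 (le_max_left _ _)
  refine le_trans ?_ hDD
  have e1 : (u ^ P) ^ c = u ^ D' * u ^ 5 := by
    rw [← Real.rpow_mul hu0.le, hPc, Real.rpow_add hu0]
    norm_cast
  have hp : 0 < u ^ D' := Real.rpow_pos_of_pos hu0 _
  rw [e1]
  have p1 : √x ≤ 1 / 3 * (x / u ^ D') := by
    have q1 : √x * u ^ D' ≤ 1 / 3 * x := by
      rw [Real.sqrt_eq_rpow]
      calc x ^ (1 / 2 : ℝ) * u ^ D' ≤ x ^ (1 / 2 : ℝ) * (1 / 3 * x ^ (1 / 2 : ℝ)) :=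
            mul_le_mul_of_nonneg_left h2 (Real.rpow_nonneg hx0.le _)
        _ = 1 / 3 * (x ^ (1 / 2 : ℝ) * x ^ (1 / 2 : ℝ)) := by ring
        _ = 1 / 3 * x := by rw [← Real.rpow_add hx0]; norm_num
    rw [← mul_div_assoc, le_div_iff₀ hp]
    exact q1
  have p2 : K * u ^ 4 * (x / (u ^ D' * u ^ 5)) ≤ 1 / 3 * (x / u ^ D') := by
    have e2 : K * u ^ 4 * (x / (u ^ D' * u ^ 5)) = K / u * (x / u ^ D') := by
      field_simp
    rw [e2]
    apply mul_le_mul_of_nonneg_right _ (by positivity)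
    rw [div_le_iff₀ hu0]
    linarith
  have p3 : K * u ^ 4 ≤ 1 / 3 * (x / u ^ D') := by
    rw [← mul_div_assoc, le_div_iff₀ hp]
    have e3 : K * u ^ 4 * u ^ D' = K * u ^ (D' + 4) := by
      rw [Real.rpow_add hu0]
      norm_cast
      ring
    rw [e3]
    calc K * u ^ (D' + 4) ≤ K * (1 / (3 * K) * x) := mul_le_mul_of_nonneg_left h1 hK.le
      _ = 1 / 3 * x := by field_simp
  calc √x + K * u ^ 4 * (x / (u ^ D' * u ^ 5) + 1)
      = √x + K * u ^ 4 * (x / (u ^ D' * u ^ 5)) + K * u ^ 4 := by ring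
    _ ≤ x / u ^ D' := by linarith

end Pool.Agent.W642.CT
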