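import Pool.Agent.W642.CT.Defs
import Pool.Agent.W38.UPDb

set_option autoImplicit false

/-! Amplification of long total stopping times of the Collatz function. -/

namespace Pool.Agent.W642.CT

/-- iterates of the shortcut map are iterates of the Collatz map -/
theorem iter_TK (j : ℕ) : ∀ n : ℕ, 0 < n → ∃ k : ℕ, k ≤ 2 * j ∧
    ((C^[k] n : ℕ) : ℤ) = (Pool.Agent.H366R2.KGen.TK 1)^[j] (n : ℤ) := by
  induction j with
  | zero => intro n _; exact ⟨0, le_rfl, rfl⟩
  | succ j ih =>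
    intro n hn
    by_cases h : n % 2 = 0
    · obtain ⟨k, hk, hk2⟩ := ih (n / 2) (by omega)
      refine ⟨k + 1, by omega, ?_⟩
      rw [Function.iterate_succ_apply, Function.iterate_succ_apply]
      have e1 : Pool.Agent.H366R2.KGen.TK 1 (n : ℤ) = ((n / 2 : ℕ) : ℤ) := by
        unfold Pool.Agent.H366R2.KGen.TK
        rw [if_pos (by omega)]
        omega
      have e2 : C n = n / 2 := by unfold C; rw [if_pos h]
      rw [e1, e2, hk2]
    · obtain ⟨k, hk, hk2⟩ := ih ((3 * n + 1) / 2) (by omega)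
      refine ⟨k + 2, by omega, ?_⟩
      rw [Function.iterate_succ_apply, Function.iterate_succ_apply, Function.iterate_succ_apply]
      have e1 : Pool.Agent.H366R2.KGen.TK 1 (n : ℤ) = (((3 * n + 1) / 2 : ℕ) : ℤ) := by
        unfold Pool.Agent.H366R2.KGen.TK
        rw [if_neg (by omega)]
        omega
      have e2 : C n = 3 * n + 1 := by unfold C; rw [if_neg h]
      have e3 : C (3 * n + 1) = (3 * n + 1) / 2 := by unfold C; rw [if_pos (by omega)]
      rw [e1, e2, e3, hk2]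

theorem block_finite (x : ℝ) (P : ℕ → Prop) :
    {n : ℕ | x / 2 < (n : ℝ) ∧ (n : ℝ) ≤ x ∧ P n}.Finite := by
  apply (Set.finite_Iic ⌊x⌋₊).subset
  rintro n ⟨_, h2, _⟩
  exact Nat.le_floor h2

theorem upd : ∃ c : ℝ, 0 < c ∧ ∀ a : ℕ, 0 < a → ¬ 3 ∣ a → ∀ x : ℝ, (a : ℝ) ≤ x →
    c * x / a ≤ ({n : ℕ | x / 2 < (n : ℝ) ∧ (n : ℝ) ≤ x ∧ ∃ k : ℕ, C^[k] n = a}.ncard : ℝ) := by
  classical
  obtain ⟨c, K, hc, hK, h⟩ := Pool.Agent.W38.UPD.main
  refine ⟨c, hc, fun a ha ha3 x hx => ?_⟩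
  obtain ⟨S, hS, hcard⟩ := h a (by exact_mod_cast ha) (by omega) x (by exact_mod_cast hx)
  rw [Int.cast_natCast] at hcard
  refine hcard.trans ?_
  have haR : (0 : ℝ) < a := by exact_mod_cast ha
  have hx0 : 0 < x := lt_of_lt_of_le haR hx
  have hpos : ∀ z ∈ S, 0 < z := by
    intro z hz
    have h1 := (hS z hz).1
    have : (0 : ℝ) < z := by linarith
    exact_mod_cast this
  have hsub : ((S.image Int.toNat : Finset ℕ) : Set ℕ) ⊆ {n : ℕ | x / 2 < (n : ℝ) ∧ (n : ℝ) ≤ x ∧
      ∃ k : ℕ, C^[k] n = a} := by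
    intro n hn
    rw [Finset.mem_coe, Finset.mem_image] at hn
    obtain ⟨z, hz, rfl⟩ := hn
    have hz0 := hpos z hz
    obtain ⟨h1, h2, j, h3, h4⟩ := hS z hz
    have hcast : ((z.toNat : ℕ) : ℤ) = z := Int.toNat_of_nonneg hz0.le
    have hcastR : ((z.toNat : ℕ) : ℝ) = (z : ℝ) := by exact_mod_cast congrArg (Int.cast : ℤ → ℝ) hcast
    obtain ⟨k, hk, hk2⟩ := iter_TK j z.toNat (by omega)
    refine ⟨by rw [hcastR]; exact h1, by rw [hcastR]; exact h2, k, ?_⟩
    rw [hcast, h4] at hk2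
    exact_mod_cast hk2
  have h1 := Set.ncard_le_ncard hsub (block_finite x _)
  rw [Set.ncard_coe_finset, Finset.card_image_of_injOn] at h1
  · exact_mod_cast h1
  · intro z hz z' hz' he
    have h2 := hpos z hz
    have h3 := hpos z' hz'
    change z.toNat = z'.toNat at he
    omega

/-- AMPLIFICATION: if the total stopping time of `n ∈ R` exceeds `t`, then so does, up to a logarithm,
that of at least `c x / n` of the integers of `R` in `(x/2, x]`, for every `x ≥ 4 n`. -/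
theorem amp : ∃ c : ℝ, 0 < c ∧ Amp c := by
  obtain ⟨c, hc, h⟩ := upd
  refine ⟨c / 4, by positivity, fun R hR n hn hnR t ht hst x hx => ?_⟩
  have hn0 : (0 : ℝ) < n := by exact_mod_cast hn
  obtain ⟨a, u, hu, h2⟩ := Nat.exists_eq_two_pow_mul_odd (show n ≠ 0 by omega)
  have hu' := Nat.odd_iff.1 hu
  set b := 3 * u + 1 with hb
  have hbn : C^[a + 1] n = b := by
    rw [add_comm, Function.iterate_add_apply, h2, iter_pow_mul, Function.iterate_one]
    unfold C
    rw [if_neg (by omega)]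
  have hun : u ≤ n := by
    rw [h2]
    exact Nat.le_mul_of_pos_left _ (by positivity)
  have hb4 : (b : ℝ) ≤ 4 * n := by
    have : b ≤ 4 * n := by omega
    exact_mod_cast this
  have hb0 : (0 : ℝ) < b := by
    have : 0 < b := by omega
    exact_mod_cast this
  have hx0 : 0 < x := by linarith
  have hlog : (a : ℝ) ≤ Real.logb 2 n := by
    rw [Real.le_logb_iff_rpow_le (by norm_num) hn0, Real.rpow_natCast]
    have : 2 ^ a ≤ n := by
      rw [h2]
      exact Nat.le_mul_of_pos_right _ (by omega)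
    exact_mod_cast this
  have hstb : ¬ StopsBy (t - (Real.logb 2 n + 1)) b := by
    rintro ⟨k, hk, hk1⟩
    apply hst
    refine ⟨k + (a + 1), ?_, by rw [Function.iterate_add_apply, hbn, hk1]⟩
    push_cast
    linarith
  have h3 := h b (by omega) (by omega) x (by linarith)
  have h4 : c / 4 * x / n ≤ c * x / b := by
    rw [div_le_div_iff₀ hn0 hb0]
    have : c * x * b ≤ c * x * (4 * n) := mul_le_mul_of_nonneg_left hb4 (by positivity)
    nlinarith
  refine (h4.trans h3).trans ?_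
  have hsub : {m : ℕ | x / 2 < (m : ℝ) ∧ (m : ℝ) ≤ x ∧ ∃ k : ℕ, C^[k] m = b} ⊆
      {m : ℕ | x / 2 < (m : ℝ) ∧ (m : ℝ) ≤ x ∧ m ∈ R ∧
        ¬ StopsBy (t - (Real.logb 2 n + 1)) m} := by
    rintro m ⟨h5, h6, k, hk⟩
    have hm1 : 1 ≤ m := by
      have : (0 : ℝ) < m := by linarith
      exact_mod_cast this
    refine ⟨h5, h6, ?_, not_stops_pre (by linarith) hk hstb⟩
    rw [hR.iter hm1 k, hk, ← hbn]
    exact (hR.iter hn _).1 hnR
  exact_mod_cast Set.ncard_le_ncard hsub (block_finite x _)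

end Pool.Agent.W642.CT
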