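import Mathlib

set_option autoImplicit false

/-! Total stopping times of the Collatz function: basic definitions. -/

namespace Pool.Agent.W642.CT

/-- the Collatz function -/
def C (n : ℕ) : ℕ := if n % 2 = 0 then n / 2 else 3 * n + 1

/-- the total stopping time is at most `t` -/
def StopsBy (t : ℝ) (n : ℕ) : Prop := ∃ k : ℕ, (k : ℝ) ≤ t ∧ C^[k] n = 1

/-- invariant sets -/
def Inv (R : Set ℕ) : Prop := ∀ n : ℕ, 1 ≤ n → (n ∈ R ↔ C n ∈ R)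

/-- number of the members of `R` up to `x` with total stopping time larger than `f` -/
noncomputable def late (R : Set ℕ) (f : ℕ → ℝ) (x : ℝ) : ℕ :=
  {m : ℕ | 1 ≤ m ∧ (m : ℝ) ≤ x ∧ m ∈ R ∧ ¬ StopsBy (f m) m}.ncard

/-- the amplification statement with the constant `c` -/
def Amp (c : ℝ) : Prop := ∀ R : Set ℕ, Inv R → ∀ n : ℕ, 1 ≤ n → n ∈ R →
    ∀ t : ℝ, Real.logb 2 n + 3 ≤ t → ¬ StopsBy t n → ∀ x : ℝ, 4 * n ≤ x →
      c * x / n ≤ ({m : ℕ | x / 2 < (m : ℝ) ∧ (m : ℝ) ≤ x ∧ m ∈ R ∧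
        ¬ StopsBy (t - (Real.logb 2 n + 1)) m}.ncard : ℝ)

/-- the law of the descent with the constants `M, c, K` -/
def Law (M c K : ℝ) : Prop := ∀ x y : ℝ, 2 ≤ x → 1 ≤ y →
    ({n : ℕ | 1 ≤ n ∧ (n : ℝ) ≤ x ∧ ¬ ∃ k : ℕ, (k : ℝ) ≤ M * Real.log n ∧
      ((C^[k] n : ℕ) : ℝ) ≤ y}.ncard : ℝ) ≤ K * (Real.log x) ^ 4 * (x / y ^ c + 1)

theorem StopsBy.mono {s t : ℝ} (h : s ≤ t) {n : ℕ} (hs : StopsBy s n) : StopsBy t n := by
  obtain ⟨k, hk, h1⟩ := hs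
  exact ⟨k, hk.trans h, h1⟩

theorem C_pos {n : ℕ} (hn : 1 ≤ n) : 1 ≤ C n := by
  unfold C; split_ifs <;> omega

theorem C_iter_pos {n : ℕ} (hn : 1 ≤ n) (k : ℕ) : 1 ≤ C^[k] n := by
  induction k with
  | zero => exact hn
  | succ k ih => rw [Function.iterate_succ_apply']; exact C_pos ih

theorem Inv.iter {R : Set ℕ} (hR : Inv R) {n : ℕ} (hn : 1 ≤ n) (k : ℕ) : n ∈ R ↔ C^[k] n ∈ R := by
  induction k with
  | zero => exact Iff.rfl
  | succ k ih => rw [Function.iterate_succ_apply', ih]; exact hR _ (C_iter_pos hn k)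

/-- after `1` -/
theorem iter_one (k : ℕ) : C^[k] 1 = 1 ∨ C^[k] 1 = 2 ∨ C^[k] 1 = 4 := by
  induction k with
  | zero => left; rfl
  | succ k ih =>
    rw [Function.iterate_succ_apply']
    rcases ih with h | h | h <;> rw [h] <;> simp [C]

theorem stops_of_cycle {a : ℕ} (h : a = 1 ∨ a = 2 ∨ a = 4) {s : ℝ} (hs : 2 ≤ s) : StopsBy s a := by
  rcases h with rfl | rfl | rfl
  · exact ⟨0, by push_cast; linarith, rfl⟩
  · exact ⟨1, by push_cast; linarith, by simp [C]⟩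
  · exact ⟨2, by push_cast; linarith, by simp [C]⟩

theorem not_stops_pre {s : ℝ} (hs : 2 ≤ s) {a m k : ℕ} (hk : C^[k] m = a) (h : ¬ StopsBy s a) :
    ¬ StopsBy s m := by
  rintro ⟨j, hj, hj1⟩
  rcases le_total k j with h1 | h1
  · obtain ⟨d, rfl⟩ := Nat.exists_eq_add_of_le h1
    rw [add_comm, Function.iterate_add_apply, hk] at hj1
    apply h
    refine ⟨d, ?_, hj1⟩
    push_cast at hj
    have : (0 : ℝ) ≤ k := Nat.cast_nonneg _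
    linarith
  · obtain ⟨d, rfl⟩ := Nat.exists_eq_add_of_le h1
    rw [add_comm, Function.iterate_add_apply, hj1] at hk
    apply h
    have h2 := iter_one d
    rw [hk] at h2
    exact stops_of_cycle h2 hs

theorem iter_pow_mul (a : ℕ) : ∀ u : ℕ, C^[a] (2 ^ a * u) = u := by
  induction a with
  | zero => intro u; simp
  | succ a ih =>
    intro u
    rw [Function.iterate_succ_apply]
    have : C (2 ^ (a + 1) * u) = 2 ^ a * u := by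
      unfold C
      have e : 2 ^ (a + 1) * u = 2 * (2 ^ a * u) := by ring
      rw [e, if_pos (by omega)]
      omega
    rw [this, ih]

theorem reach_of_mul {n j k : ℕ} (h : C^[k] (2 ^ j * n) = 1) : ∃ i, C^[i] n = 1 := by
  rcases le_total j k with h1 | h1
  · obtain ⟨d, rfl⟩ := Nat.exists_eq_add_of_le h1
    rw [add_comm, Function.iterate_add_apply, iter_pow_mul] at h
    exact ⟨d, h⟩
  · obtain ⟨d, rfl⟩ := Nat.exists_eq_add_of_le h1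
    have h2 : C^[d] 1 = n := by
      have h3 : C^[k + d] (2 ^ (k + d) * n) = n := iter_pow_mul _ _
      rwa [add_comm, Function.iterate_add_apply, add_comm, h] at h3
    rcases iter_one d with h3 | h3 | h3
    · exact ⟨0, by rw [← h2, h3]; rfl⟩
    · exact ⟨1, by rw [← h2, h3]; simp [C]⟩
    · exact ⟨2, by rw [← h2, h3]; simp [C]⟩

/-- a bound for the large members gives a bound for all members -/
theorem all_members {R : Set ℕ} (hR : Inv R) {A : ℝ} {N₀ : ℕ}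
    (h : ∀ n : ℕ, N₀ ≤ n → n ∈ R → StopsBy ((n : ℝ) ^ A) n) :
    ∃ S : ℝ, 0 ≤ S ∧ ∀ n : ℕ, 1 ≤ n → n ∈ R → StopsBy (S + (n : ℝ) ^ A) n := by
  classical
  have hreach : ∀ n, 1 ≤ n → n ∈ R → ∃ k, C^[k] n = 1 := by
    intro n hn hnR
    have hbig : N₀ ≤ 2 ^ N₀ * n := by
      calc N₀ ≤ 2 ^ N₀ := Nat.lt_two_pow_self.le
        _ ≤ 2 ^ N₀ * n := Nat.le_mul_of_pos_right _ hn
    have hR' : 2 ^ N₀ * n ∈ R := by
      rw [hR.iter (Nat.mul_pos (by positivity) hn) N₀, iter_pow_mul]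
      exact hnR
    obtain ⟨k, _, hk⟩ := h _ hbig hR'
    exact reach_of_mul hk
  have hch : ∀ n : ℕ, ∃ k : ℕ, 1 ≤ n → n ∈ R → C^[k] n = 1 := by
    intro n
    by_cases h1 : 1 ≤ n ∧ n ∈ R
    · obtain ⟨k, hk⟩ := hreach n h1.1 h1.2
      exact ⟨k, fun _ _ => hk⟩
    · exact ⟨0, fun h2 h3 => absurd ⟨h2, h3⟩ h1⟩
  choose f hf using hch
  refine ⟨((Finset.range N₀).sup f : ℕ), Nat.cast_nonneg _, fun n hn hnR => ?_⟩
  rcases le_or_gt N₀ n with h1 | h1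
  · exact (h n h1 hnR).mono (by
      have : (0 : ℝ) ≤ (((Finset.range N₀).sup f : ℕ) : ℝ) := Nat.cast_nonneg _
      linarith)
  · refine ⟨f n, ?_, hf n hn hnR⟩
    have h2 : f n ≤ (Finset.range N₀).sup f := Finset.le_sup (f := f) (Finset.mem_range.2 h1)
    have h3 : (f n : ℝ) ≤ (((Finset.range N₀).sup f : ℕ) : ℝ) := by exact_mod_cast h2
    have h4 : 0 ≤ (n : ℝ) ^ A := Real.rpow_nonneg (Nat.cast_nonneg _) _
    linarith

theorem late_finite (R : Set ℕ) (f : ℕ → ℝ) (x : ℝ) :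
    {m : ℕ | 1 ≤ m ∧ (m : ℝ) ≤ x ∧ m ∈ R ∧ ¬ StopsBy (f m) m}.Finite := by
  apply (Set.finite_Iic ⌊x⌋₊).subset
  rintro n ⟨_, h2, _⟩
  exact Nat.le_floor h2

/-- amplification for the counting function -/
theorem amp_late {c : ℝ} (hA : Amp c) {R : Set ℕ} (hR : Inv R) {n : ℕ} (hn : 1 ≤ n) (hnR : n ∈ R)
    {t : ℝ} (ht : Real.logb 2 n + 3 ≤ t) (hst : ¬ StopsBy t n) {x : ℝ} (hx : 4 * n ≤ x)
    {f : ℕ → ℝ} (hf : ∀ m : ℕ, 1 ≤ m → (m : ℝ) ≤ x → f m ≤ t - (Real.logb 2 n + 1)) :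
    c * x / n ≤ (late R f x : ℝ) := by
  refine (hA R hR n hn hnR t ht hst x hx).trans ?_
  have hn0 : (0 : ℝ) < n := by exact_mod_cast hn
  have hsub : {m : ℕ | x / 2 < (m : ℝ) ∧ (m : ℝ) ≤ x ∧ m ∈ R ∧
        ¬ StopsBy (t - (Real.logb 2 n + 1)) m} ⊆
      {m : ℕ | 1 ≤ m ∧ (m : ℝ) ≤ x ∧ m ∈ R ∧ ¬ StopsBy (f m) m} := by
    rintro m ⟨h1, h2, h3, h4⟩
    have hm1 : 1 ≤ m := by
      have : (0 : ℝ) < m := by linarith
      exact_mod_cast this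
    exact ⟨hm1, h2, h3, fun h5 => h4 (h5.mono (hf m hm1 h2))⟩
  exact_mod_cast Set.ncard_le_ncard hsub (late_finite R f x)

/-- the count from above -/
theorem late_le {M c K : ℝ} (hL : Law M c K) {R : Set ℕ} (hR : Inv R) {A S : ℝ} (hA : 0 ≤ A)
    (hS : ∀ n : ℕ, 1 ≤ n → n ∈ R → StopsBy (S + (n : ℝ) ^ A) n) {x y : ℝ} (hx : 2 ≤ x) (hy : 1 ≤ y)
    {f : ℕ → ℝ} (hf : ∀ n : ℕ, 1 ≤ n → √x < (n : ℝ) → (n : ℝ) ≤ x →
      M * Real.log n + S + y ^ A ≤ f n) :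
    (late R f x : ℝ) ≤ √x + K * (Real.log x) ^ 4 * (x / y ^ c + 1) := by
  have h1 := hL x y hx hy
  have hx0 : 0 ≤ x := by linarith
  have hsub : {m : ℕ | 1 ≤ m ∧ (m : ℝ) ≤ x ∧ m ∈ R ∧ ¬ StopsBy (f m) m} ⊆
      (Set.Icc 1 ⌊√x⌋₊) ∪ {n : ℕ | 1 ≤ n ∧ (n : ℝ) ≤ x ∧ ¬ ∃ k : ℕ, (k : ℝ) ≤ M * Real.log n ∧
      ((C^[k] n : ℕ) : ℝ) ≤ y} := by
    rintro n ⟨h2, h3, h4, h5⟩
    by_cases h6 : (n : ℝ) ≤ √x
    · left
      exact ⟨h2, Nat.le_floor h6⟩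
    · right
      rw [not_le] at h6
      refine ⟨h2, h3, ?_⟩
      rintro ⟨k, hk1, hk2⟩
      apply h5
      have hpos := C_iter_pos h2 k
      obtain ⟨j, hj1, hj2⟩ := hS _ hpos ((hR.iter h2 k).1 h4)
      refine ⟨j + k, ?_, by rw [Function.iterate_add_apply, hj2]⟩
      refine le_trans ?_ (hf n h2 h6 h3)
      have h7 : ((C^[k] n : ℕ) : ℝ) ^ A ≤ y ^ A :=
        Real.rpow_le_rpow (Nat.cast_nonneg _) hk2 hA
      push_cast
      linarith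
  have hfin2 : {n : ℕ | 1 ≤ n ∧ (n : ℝ) ≤ x ∧ ¬ ∃ k : ℕ, (k : ℝ) ≤ M * Real.log n ∧
      ((C^[k] n : ℕ) : ℝ) ≤ y}.Finite := by
    apply (Set.finite_Iic ⌊x⌋₊).subset
    rintro n ⟨_, h2, _⟩
    exact Nat.le_floor h2
  have hcount := (Set.ncard_le_ncard hsub ((Set.finite_Icc _ _).union hfin2)).trans
    (Set.ncard_union_le _ _)
  have hI : ((Set.Icc 1 ⌊√x⌋₊).ncard : ℝ) ≤ √x := by
    rw [← Finset.coe_Icc, Set.ncard_coe_finset, Nat.card_Icc, Nat.add_sub_cancel]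
    exact Nat.floor_le (Real.sqrt_nonneg x)
  have hcount' : (late R f x : ℝ) ≤ ((Set.Icc 1 ⌊√x⌋₊).ncard : ℝ) +
      ({n : ℕ | 1 ≤ n ∧ (n : ℝ) ≤ x ∧ ¬ ∃ k : ℕ, (k : ℝ) ≤ M * Real.log n ∧
      ((C^[k] n : ℕ) : ℝ) ≤ y}.ncard : ℝ) := by
    unfold late
    exact_mod_cast hcount
  linarith

end Pool.Agent.W642.CT
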