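import Pool.Agent.W642.CT.Defs

set_option autoImplicit false

/-! From few exceptions to none: bounds for total stopping times of the Collatz function. -/

namespace Pool.Agent.W642.CT

open Filter Topology

/-- single scale criterion -/
theorem single_scale {c : ℝ} (hA : Amp c) {R : Set ℕ} (hR : Inv R) {θ : ℝ} (hθ : θ < 1)
    (h : ∀ᶠ n : ℕ in atTop, ∃ x : ℝ, 4 * n ≤ x ∧ (late R (fun _ => θ * n) x : ℝ) < c * x / n) :
    ∀ᶠ n : ℕ in atTop, n ∈ R → StopsBy n n := by
  have e1 : ∀ᶠ u : ℝ in atTop, Real.log u ≤ (min (1 - θ) 1 / 4) * u := by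
    have := Real.isLittleO_log_id_atTop.bound (show 0 < min (1 - θ) 1 / 4 by
      have : 0 < min (1 - θ) 1 := lt_min (by linarith) one_pos
      linarith)
    filter_upwards [this, eventually_ge_atTop 1] with u hu hu1
    rw [Real.norm_eq_abs, Real.norm_eq_abs, id, abs_of_nonneg (by linarith : (0 : ℝ) ≤ u)] at hu
    exact (le_abs_self _).trans hu
  have e2 : ∀ᶠ u : ℝ in atTop, 3 ≤ (min (1 - θ) 1 / 4) * u :=
    (tendsto_id.const_mul_atTop (show 0 < min (1 - θ) 1 / 4 by
      have : 0 < min (1 - θ) 1 := lt_min (by linarith) one_pos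
      linarith)).eventually_ge_atTop 3
  have e3 := (tendsto_natCast_atTop_atTop (R := ℝ)).eventually (e1.and e2)
  filter_upwards [h, e3, eventually_ge_atTop 1] with n hn hn3 hn1 hnR
  obtain ⟨x, hx, hlt⟩ := hn
  by_contra hst
  have hn0 : (0 : ℝ) < n := by exact_mod_cast hn1
  have hl2 := Real.log_two_gt_d9
  have hlogb : Real.logb 2 n ≤ 2 * Real.log n := by
    unfold Real.logb
    rw [div_le_iff₀ (by linarith)]
    have : 0 ≤ Real.log n := Real.log_natCast_nonneg n
    nlinarith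
  have hm1 : min (1 - θ) 1 ≤ 1 - θ := min_le_left _ _
  have hm2 : min (1 - θ) 1 ≤ 1 := min_le_right _ _
  have hb1 : Real.logb 2 n + 3 ≤ min (1 - θ) 1 * n := by
    have := hn3.1
    have := hn3.2
    linarith
  have h1 := amp_late hA hR hn1 hnR (t := n) (by nlinarith) hst hx (f := fun _ => θ * n)
    (fun m _ _ => by
      have : min (1 - θ) 1 * n ≤ (1 - θ) * n := mul_le_mul_of_nonneg_right hm1 hn0.le
      linarith)
  linarith

/-- power saving gives a power bound -/
theorem power_of_saving {c : ℝ} (hc : 0 < c) (hA : Amp c) {R : Set ℕ} (hR : Inv R) {A B δ : ℝ}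
    (hB : 0 < B) (hδ : 0 < δ) (hδ1 : δ ≤ 1) (hAB : B < δ * A)
    (h : ∀ᶠ x : ℝ in atTop, (late R (fun n => (n : ℝ) ^ B) x : ℝ) ≤ x ^ (1 - δ)) :
    ∀ᶠ n : ℕ in atTop, n ∈ R → StopsBy ((n : ℝ) ^ A) n := by
  have hA0 : 0 < A := by
    by_contra h0
    rw [not_lt] at h0
    nlinarith
  have hAB1 : 1 < A / B := by
    rw [lt_div_iff₀ hB]
    nlinarith
  have hABδ : 1 < A / B * δ := by
    rw [div_mul_eq_mul_div, lt_div_iff₀ hB]
    linarith
  set X : ℝ → ℝ := fun u => (u ^ A / 2) ^ (1 / B) with hX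
  have hXe : ∀ u : ℝ, 0 < u → X u = u ^ (A / B) * (1 / 2) ^ (1 / B) := by
    intro u hu
    rw [hX]
    simp only
    rw [div_eq_mul_one_div (u ^ A) 2, Real.mul_rpow (by positivity) (by norm_num),
      ← Real.rpow_mul hu.le]
    congr 2
    ring
  have hh0 : (0 : ℝ) < (1 / 2) ^ (1 / B) := by positivity
  have hXt : Tendsto X atTop atTop := by
    have h1 : Tendsto (fun u : ℝ => u ^ (A / B) * (1 / 2) ^ (1 / B)) atTop atTop :=
      (tendsto_rpow_atTop (by linarith)).atTop_mul_const hh0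
    refine h1.congr' ?_
    filter_upwards [eventually_gt_atTop 0] with u hu
    rw [hXe u hu]
  have f1 : ∀ᶠ u : ℝ in atTop, Real.log u ≤ 1 / 8 * u ^ A := by
    have := (isLittleO_log_rpow_atTop hA0).bound (show (0 : ℝ) < 1 / 8 by norm_num)
    filter_upwards [this, eventually_ge_atTop 1] with u hu hu1
    rw [Real.norm_eq_abs, Real.norm_eq_abs, abs_of_nonneg (Real.rpow_nonneg (by linarith) _)] at hu
    exact (le_abs_self _).trans hu
  have f1' : ∀ᶠ u : ℝ in atTop, 12 ≤ u ^ A := (tendsto_rpow_atTop hA0).eventually_ge_atTop 12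
  have f2 : ∀ᶠ u : ℝ in atTop, 4 * u ≤ X u := by
    have h1 := (tendsto_rpow_atTop (show 0 < A / B - 1 by linarith)).eventually_ge_atTop
      (4 / (1 / 2) ^ (1 / B))
    filter_upwards [h1, eventually_gt_atTop 0] with u hu hu0
    rw [hXe u hu0]
    rw [div_le_iff₀ hh0] at hu
    have e : u ^ (A / B) = u ^ (A / B - 1) * u := by
      rw [Real.rpow_sub_one hu0.ne']
      field_simp
    rw [e]
    nlinarith
  have f3 : ∀ᶠ u : ℝ in atTop, u < c * X u ^ δ := by
    have hg0 : (0 : ℝ) < ((1 / 2) ^ (1 / B)) ^ δ := by positivity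
    have h1 := (tendsto_rpow_atTop (show 0 < A / B * δ - 1 by linarith)).eventually_gt_atTop
      (1 / (c * ((1 / 2) ^ (1 / B)) ^ δ))
    filter_upwards [h1, eventually_gt_atTop 0] with u hu hu0
    rw [hXe u hu0, Real.mul_rpow (by positivity) hh0.le, ← Real.rpow_mul hu0.le]
    rw [div_lt_iff₀ (by positivity)] at hu
    have e : u ^ (A / B * δ) = u ^ (A / B * δ - 1) * u := by
      rw [Real.rpow_sub_one hu0.ne']
      field_simp
    rw [e]
    nlinarith
  have f4 := hXt.eventually h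
  have f5 := hXt.eventually (eventually_gt_atTop (0 : ℝ))
  filter_upwards [(tendsto_natCast_atTop_atTop (R := ℝ)).eventually
    (((f1.and f1').and (f2.and f3)).and (f4.and f5)), eventually_ge_atTop 1] with n hn hn1 hnR
  obtain ⟨⟨⟨g1, g1'⟩, g2, g3⟩, g4, g5⟩ := hn
  by_contra hst
  have hn0 : (0 : ℝ) < n := by exact_mod_cast hn1
  have hl2 := Real.log_two_gt_d9
  have hlogb : Real.logb 2 n ≤ 2 * Real.log n := by
    unfold Real.logb
    rw [div_le_iff₀ (by linarith)]
    have : 0 ≤ Real.log n := Real.log_natCast_nonneg n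
    nlinarith
  have h1 := amp_late hA hR hn1 hnR (t := (n : ℝ) ^ A) (by linarith) hst g2
    (f := fun m => (m : ℝ) ^ B) (fun m _ hm => by
      have h2 : (m : ℝ) ^ B ≤ (X n) ^ B := Real.rpow_le_rpow (Nat.cast_nonneg _) hm hB.le
      have h3 : (X n) ^ B = (n : ℝ) ^ A / 2 := by
        rw [hX]
        simp only
        rw [← Real.rpow_mul (by positivity)]
        rw [one_div, inv_mul_cancel₀ hB.ne', Real.rpow_one]
      linarith)
  have h2 := h1.trans g4
  have e : X n ^ (1 - δ) = X n / X n ^ δ := by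
    rw [Real.rpow_sub g5, Real.rpow_one]
  rw [e, div_le_div_iff₀ hn0 (by positivity)] at h2
  have h3 : c * X n * X n ^ δ = X n * (c * X n ^ δ) := by ring
  rw [h3] at h2
  have := le_of_mul_le_mul_left h2 g5
  linarith

/-- logarithmic saving gives a power bound -/
theorem power_of_log_saving {c : ℝ} (hc : 0 < c) (hA : Amp c) {R : Set ℕ} (hR : Inv R) {A K D : ℝ}
    (hK : 0 < K) (hD : 0 < D) (hAD : 1 < D * A)
    (h : ∀ᶠ x : ℝ in atTop, (late R (fun n => K * Real.log n) x : ℝ) ≤ x / (Real.log x) ^ D) :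
    ∀ᶠ n : ℕ in atTop, n ∈ R → StopsBy ((n : ℝ) ^ A) n := by
  have hA0 : 0 < A := by
    by_contra h0
    rw [not_lt] at h0
    nlinarith
  set X : ℝ → ℝ := fun u => Real.exp (u ^ A / (2 * K)) with hX
  have hXt : Tendsto X atTop atTop :=
    Real.tendsto_exp_atTop.comp ((tendsto_rpow_atTop hA0).atTop_div_const (by positivity))
  have f1 : ∀ᶠ u : ℝ in atTop, Real.log u ≤ (min (1 / 8) (1 / (4 * K))) * u ^ A := by
    have hp : (0 : ℝ) < min (1 / 8) (1 / (4 * K)) := lt_min (by norm_num) (by positivity)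
    have := (isLittleO_log_rpow_atTop hA0).bound hp
    filter_upwards [this, eventually_ge_atTop 1] with u hu hu1
    rw [Real.norm_eq_abs, Real.norm_eq_abs, abs_of_nonneg (Real.rpow_nonneg (by linarith) _)] at hu
    exact (le_abs_self _).trans hu
  have f1' : ∀ᶠ u : ℝ in atTop, max 12 (8 * K) ≤ u ^ A :=
    (tendsto_rpow_atTop hA0).eventually_ge_atTop _
  have f3 : ∀ᶠ u : ℝ in atTop, u < c * (u ^ A / (2 * K)) ^ D := by
    have hg0 : (0 : ℝ) < (1 / (2 * K)) ^ D := by positivity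
    have h1 := (tendsto_rpow_atTop (show 0 < A * D - 1 by linarith)).eventually_gt_atTop
      (1 / (c * (1 / (2 * K)) ^ D))
    filter_upwards [h1, eventually_gt_atTop 0] with u hu hu0
    rw [div_eq_mul_one_div (u ^ A) (2 * K), Real.mul_rpow (by positivity) (by positivity),
      ← Real.rpow_mul hu0.le]
    rw [div_lt_iff₀ (by positivity)] at hu
    have e : u ^ (A * D) = u ^ (A * D - 1) * u := by
      rw [Real.rpow_sub_one hu0.ne']
      field_simp
    rw [e]
    nlinarith
  have f4 := hXt.eventually h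
  filter_upwards [(tendsto_natCast_atTop_atTop (R := ℝ)).eventually
    (((f1.and f1').and f3).and f4), eventually_ge_atTop 1] with n hn hn1 hnR
  obtain ⟨⟨⟨g1, g1'⟩, g3⟩, g4⟩ := hn
  by_contra hst
  have hn0 : (0 : ℝ) < n := by exact_mod_cast hn1
  have hl2 := Real.log_two_gt_d9
  have hlog0 : 0 ≤ Real.log (n : ℝ) := Real.log_natCast_nonneg n
  have hnA : 0 < (n : ℝ) ^ A := by positivity
  have hlogb : Real.logb 2 n ≤ 2 * Real.log n := by
    unfold Real.logb
    rw [div_le_iff₀ (by linarith)]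
    nlinarith
  have k1 : Real.log n ≤ 1 / 8 * (n : ℝ) ^ A :=
    g1.trans (mul_le_mul_of_nonneg_right (min_le_left _ _) hnA.le)
  have k2 : Real.log n ≤ 1 / (4 * K) * (n : ℝ) ^ A :=
    g1.trans (mul_le_mul_of_nonneg_right (min_le_right _ _) hnA.le)
  have k3 : 12 ≤ (n : ℝ) ^ A := (le_max_left _ _).trans g1'
  have k4 : 8 * K ≤ (n : ℝ) ^ A := (le_max_right _ _).trans g1'
  have hlogX : Real.log (X n) = (n : ℝ) ^ A / (2 * K) := Real.log_exp _
  have hXpos : 0 < X n := Real.exp_pos _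
  have h4X : 4 * (n : ℝ) ≤ X n := by
    rw [hX]
    simp only
    have e1 : 4 * (n : ℝ) ≤ Real.exp 2 * Real.exp (Real.log n) := by
      rw [Real.exp_log hn0]
      apply mul_le_mul_of_nonneg_right _ hn0.le
      have : Real.exp 2 = Real.exp 1 * Real.exp 1 := by rw [← Real.exp_add]; norm_num
      rw [this]
      have := Real.exp_one_gt_d9
      nlinarith
    refine e1.trans ?_
    rw [← Real.exp_add]
    apply Real.exp_le_exp.2
    have e2 : (n : ℝ) ^ A / (2 * K) = 1 / (4 * K) * (n : ℝ) ^ A + (n : ℝ) ^ A / (4 * K) := by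
      field_simp
      ring
    have e3 : 2 ≤ (n : ℝ) ^ A / (4 * K) := by
      rw [le_div_iff₀ (by positivity)]
      linarith
    linarith
  have h1 := amp_late hA hR hn1 hnR (t := (n : ℝ) ^ A) (by linarith) hst h4X
    (f := fun m => K * Real.log m) (fun m hm1 hm => by
      have hm0 : (0 : ℝ) < m := by exact_mod_cast hm1
      have h2 : Real.log m ≤ (n : ℝ) ^ A / (2 * K) := by
        rw [← hlogX]
        exact Real.log_le_log hm0 hm
      have h3 : K * Real.log m ≤ (n : ℝ) ^ A / 2 := by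
        calc K * Real.log m ≤ K * ((n : ℝ) ^ A / (2 * K)) := mul_le_mul_of_nonneg_left h2 hK.le
          _ = (n : ℝ) ^ A / 2 := by field_simp
      linarith)
  have h2 := h1.trans g4
  rw [hlogX, div_le_div_iff₀ hn0 (by positivity)] at h2
  have h3 : c * X n * ((n : ℝ) ^ A / (2 * K)) ^ D = X n * (c * ((n : ℝ) ^ A / (2 * K)) ^ D) := by
    ring
  rw [h3] at h2
  have := le_of_mul_le_mul_left h2 hXpos
  linarith

end Pool.Agent.W642.CT
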